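import Pool.Agent.Q25.UReg6

/-!
# Common small summands of `s` even numbers: the laws, for every choice of the numbers

The question asks for a prime `p` with `√N < p < 4 √N` and `N - p` prime, for every even `N`.  Let `s ≥ 1`, `0 < η`, `2 ≤ E`,
`0 < θ`.  For EVERY large `X` and EVERY `s` even numbers `N_1, ..., N_s` in `[X ^ 2, X ^ E]` (congruent modulo the odd primes
`≤ s + 1`, with mutual distances `≥ X ^ η`; for `s = 1` every even number with `X ≤ √N`) call `m` good if none of the `s + 1`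
numbers `m, N_1 - m, ..., N_s - m` has a prime factor `≤ X ^ (1/r)`.  In ALL intervals of length at least `X ^ θ` (for
instance inside all `(√N_i, 4 √N_i)`) the numbers of the good `m` in windows follow the Poisson law and the gaps between
the good `m` are exponentially distributed, and almost all elements of an ARBITRARY set of good `m` (for instance of the
primes `m` for which all `N_i - m` are prime) are regular points of this set.
-/

set_option autoImplicit false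

namespace Pool.Agent.Results.MP_b454d1_nt.CommonSummandLaws

open Finset
open Pool.Agent.Q25.UReg (Good V count pois PoissonLaw GapLaw N RightOrder ConstantDensity badScales Irregular)

/-- the coefficients of `m` in `m` (index `0`) and in `N_i - m` -/
def co (s : ℕ) : Fin (s + 1) → ℤ := Fin.cons 1 fun _ => -1

/-- the constant terms -/
def ct {s : ℕ} (ν : Fin s → ℕ) : Fin (s + 1) → ℤ := Fin.cons 0 fun i => (ν i : ℤ)

/-- the conditions on the numbers `ν i = N_i` -/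
structure Evens {s : ℕ} (ν : Fin s → ℕ) : Prop where
  even : ∀ i, Even (ν i)
  cong : ∀ p : ℕ, p.Prime → 3 ≤ p → p ≤ s + 1 → ∀ i j, ν i ≡ ν j [MOD p]

lemma adm {s : ℕ} (hs : 1 ≤ s) (ν : Fin s → ℕ) (h : Evens ν) (p : ℕ) (hp : p.Prime) :
    ∃ m : ℤ, ∀ i, ¬ (p : ℤ) ∣ co s i * m + ct ν i := by
  have hp1 : ¬ (p : ℤ) ∣ 1 := fun h => hp.one_lt.ne' (Nat.dvd_one.1 (by exact_mod_cast h))
  rcases lt_or_ge (s + 1) p with h2 | h2
  · apply Pool.Agent.Q25.UReg.adm_small (co s) (ct ν) p hp h2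
    intro i h3
    refine Fin.cases (fun h4 => ?_) (fun i h4 => ?_) i h3
    · exact hp1 h4.1
    · exact hp1 ((dvd_neg).1 h4.1)
  · rcases hp.two_le.lt_or_eq with h3 | h3
    · obtain ⟨m, hm⟩ := Pool.Agent.Q25.UReg.adm_small (k := 2) ![1, -1] ![0, (ν ⟨0, by omega⟩ : ℤ)] p hp h3 (by
        intro i h4
        fin_cases i
        · exact hp1 h4.1
        · exact hp1 ((dvd_neg).1 h4.1))
      refine ⟨m, fun i => ?_⟩
      refine Fin.cases ?_ (fun i => ?_) i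
      · exact hm 0
      · intro h4
        apply hm 1
        have h5 := (h.cong p hp h3 h2 i ⟨0, by omega⟩)
        have h6 : (p : ℤ) ∣ (ν ⟨0, by omega⟩ : ℤ) - (ν i : ℤ) := (Nat.modEq_iff_dvd).1 h5
        have e : (-1 : ℤ) * m + (ν ⟨0, by omega⟩ : ℤ) = (-1 * m + (ν i : ℤ)) + ((ν ⟨0, by omega⟩ : ℤ) - (ν i : ℤ)) := by ring
        change (p : ℤ) ∣ (-1 : ℤ) * m + (ν ⟨0, by omega⟩ : ℤ)
        rw [e]
        exact dvd_add h4 h6
    · subst h3
      refine ⟨1, fun i => ?_⟩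
      refine Fin.cases ?_ (fun i => ?_) i
      · change ¬ ((2 : ℕ) : ℤ) ∣ 1 * 1 + 0
        omega
      · intro h4
        change ((2 : ℕ) : ℤ) ∣ -1 * 1 + (ν i : ℤ) at h4
        obtain ⟨a, ha⟩ := h.even i
        omega

lemma two {s : ℕ} (hs : 1 ≤ s) (ν : Fin s → ℕ) (h1 : ∀ i, 1 ≤ ν i) :
    Pool.Agent.Q25.UReg.TwoForms (co s) (ct ν) := by
  refine ⟨0, Fin.succ ⟨0, by omega⟩, ?_, ?_⟩
  · rintro ⟨h, -⟩
    change (1 : ℤ) = -1 at h
    omega
  · rintro ⟨-, h⟩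
    change (0 : ℤ) = -((ν ⟨0, by omega⟩ : ℕ) : ℤ) at h
    have := h1 ⟨0, by omega⟩
    omega

lemma noTr {s : ℕ} (ν : Fin s → ℕ) (U : ℝ) (hU : ∀ i, U < ν i) (hd : ∀ i j, i ≠ j → U < |(ν i : ℝ) - ν j|) :
    Pool.Agent.Q25.UReg.NoTranslates2 (co s) (ct ν) U := by
  intro i j t ht htU
  have ht' : (1 : ℤ) ≤ t := by exact_mod_cast ht
  refine Fin.cases (Fin.cases ?_ (fun j => ?_) j) (fun i => Fin.cases ?_ (fun j => ?_) j) i
  · refine ⟨fun h => ?_, fun h => ?_⟩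
    · have := h.2
      change (0 : ℤ) = 0 + 1 * t at this
      omega
    · have := h.1
      change (1 : ℤ) = -1 at this
      omega
  · refine ⟨fun h => ?_, fun h => ?_⟩
    · have := h.1
      change (1 : ℤ) = -1 at this
      omega
    · have h2 := h.2
      change (0 : ℤ) = -((ν j : ℤ) + -1 * t) at h2
      have h3 : (ν j : ℤ) = t := by omega
      have h4 : (ν j : ℝ) = t := by exact_mod_cast h3
      have := hU j
      linarith
  · refine ⟨fun h => ?_, fun h => ?_⟩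
    · have := h.1
      change (-1 : ℤ) = 1 at this
      omega
    · have h2 := h.2
      change (ν i : ℤ) = -(0 + 1 * t) at h2
      omega
  · refine ⟨fun h => ?_, fun h => ?_⟩
    · have h2 := h.2
      change (ν i : ℤ) = (ν j : ℤ) + -1 * t at h2
      rcases eq_or_ne i j with h3 | h3
      · subst h3
        omega
      · have h4 := hd i j h3
        have h5 : (ν i : ℝ) - ν j = -(t : ℝ) := by
          have h6 : (ν i : ℤ) - ν j = -(t : ℤ) := by linarith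
          exact_mod_cast h6
        rw [h5, abs_neg, abs_of_nonneg (by positivity)] at h4
        linarith
    · have := h.1
      change (-1 : ℤ) = -(-1) at this
      omega

lemma bounds {s : ℕ} (ν : Fin s → ℕ) (X : ℕ) (E : ℝ) (hE : 0 < E) (hX : 1 ≤ X) (hν : ∀ i, (ν i : ℝ) ≤ (X : ℝ) ^ E) :
    (∀ i, |(co s i : ℝ)| ≤ (X : ℝ) ^ E) ∧ ∀ i, |(ct ν i : ℝ)| ≤ (X : ℝ) ^ E := by
  have hX1 : (1 : ℝ) ≤ X := by exact_mod_cast hX
  have h1 : (1 : ℝ) ≤ (X : ℝ) ^ E := Real.one_le_rpow hX1 hE.le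
  constructor
  · intro i
    refine Fin.cases ?_ (fun i => ?_) i
    · change |((1 : ℤ) : ℝ)| ≤ _
      simpa using h1
    · change |((-1 : ℤ) : ℝ)| ≤ _
      simpa using h1
  · intro i
    refine Fin.cases ?_ (fun i => ?_) i
    · change |((0 : ℤ) : ℝ)| ≤ _
      simp only [Int.cast_zero, abs_zero]
      linarith
    · change |(((ν i : ℕ) : ℤ) : ℝ)| ≤ _
      rw [Int.cast_natCast, abs_of_nonneg (by positivity)]
      exact hν i

/-- **The laws of the common small summands of `s` even numbers.** -/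
theorem result (s : ℕ) (hs : 1 ≤ s) (E η θ : ℝ) (hE : 2 ≤ E) (hη : 0 < η) (hη1 : η ≤ 1) (hθ : 0 < θ) :
    (∀ (l₀ : ℕ) (x₀ ε : ℝ), 0 < ε → ∃ r₀ : ℕ, ∀ r : ℕ, r₀ ≤ r → ∃ X₀ : ℕ, ∀ X : ℕ, X₀ ≤ X →
      ∀ ν : Fin s → ℕ, Evens ν → (∀ i, X ^ 2 ≤ ν i ∧ (ν i : ℝ) ≤ (X : ℝ) ^ E) →
        (∀ i j, i ≠ j → (X : ℝ) ^ η ≤ |(ν i : ℝ) - ν j|) → ∀ Z Y : ℕ, (X : ℝ) ^ θ ≤ Y →
        PoissonLaw (co s) (ct ν) r X Z Y x₀ ε ∧ GapLaw (co s) (ct ν) r X Z Y l₀ x₀ ε) ∧
    ∃ r₀ : ℕ, ∀ r : ℕ, r₀ ≤ r → ∀ ε : ℝ, 0 < ε → ∃ c : ℝ, 0 < c ∧ ∀ δ : ℝ, 0 < δ → ∃ B X₀ : ℕ,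
      ∀ X : ℕ, X₀ ≤ X → ∀ ν : Fin s → ℕ, Evens ν → (∀ i, 1 ≤ ν i ∧ (ν i : ℝ) ≤ (X : ℝ) ^ E) →
        ∀ u Y : ℕ, (X : ℝ) ^ θ ≤ Y → Y ≤ X → Y ≤ u →
        ∀ A : Set ℕ, (∀ m ∈ A, Good (co s) (ct ν) r X m) →
          (N (Irregular A (V (co s) (ct ν) r X) c δ B Y) u (u + Y) : ℝ) ≤
            ε * (Y * V (co s) (ct ν) r X) := by
  have hne : ∀ i, co s i ≠ 0 := by
    intro i
    refine Fin.cases ?_ (fun i => ?_) i
    · change (1 : ℤ) ≠ 0
      norm_num
    · change (-1 : ℤ) ≠ 0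
      norm_num
  constructor
  · intro l₀ x₀ ε hε
    obtain ⟨r₀, _, h⟩ := Pool.Agent.Q25.UReg.lin_laws2 (s + 1) E (η / 2) θ (by linarith) (by linarith) hθ l₀ x₀ ε hε
    refine ⟨r₀, fun r hr => ?_⟩
    obtain ⟨X₀, hX₀⟩ := Filter.eventually_atTop.1 ((h r hr).and (Filter.eventually_ge_atTop 2))
    refine ⟨X₀, fun X hX ν hν hνX hd Z Y hY => ?_⟩
    obtain ⟨h1, h2⟩ := hX₀ X hX
    have hX1 : (1 : ℝ) < X := by exact_mod_cast (by omega : 1 < X)
    have hU : (X : ℝ) ^ (η / 2) < (X : ℝ) ^ η := Real.rpow_lt_rpow_of_exponent_lt hX1 (by linarith)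
    have hXη : (X : ℝ) ^ η ≤ X := by
      conv_rhs => rw [← Real.rpow_one (X : ℝ)]
      exact Real.rpow_le_rpow_of_exponent_le hX1.le hη1
    have hν1 : ∀ i, (X : ℝ) ≤ ν i := by
      intro i
      have h3 := (hνX i).1
      have h4 : X ≤ ν i := le_trans (Nat.le_self_pow (by norm_num) X) h3
      exact_mod_cast h4
    have hb := bounds ν X E (by linarith) (by omega) (fun i => (hνX i).2)
    exact h1 (co s) (ct ν) hne hb.1 hb.2 (adm hs ν hν)
      (two hs ν (fun i => by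
        have h3 := hν1 i
        have h4 : (1 : ℝ) ≤ ν i := by linarith
        exact_mod_cast h4))
      (noTr ν _ (fun i => by have := hν1 i; linarith) (fun i j hij => lt_of_lt_of_le hU (hd i j hij))) Z Y hY
  · obtain ⟨r₀, _, h⟩ := Pool.Agent.Q25.UReg.lin_reg2 (s + 1) E θ (by linarith) hθ
    refine ⟨r₀, fun r hr ε hε => ?_⟩
    obtain ⟨c, hc, h1⟩ := h r hr ε hε
    refine ⟨c, hc, fun δ hδ => ?_⟩
    obtain ⟨B, hB⟩ := h1 δ hδ
    obtain ⟨X₀, hX₀⟩ := Filter.eventually_atTop.1 (hB.and (Filter.eventually_ge_atTop 1))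
    refine ⟨B, X₀, fun X hX ν hν hνX u Y hXY hYX hYu A hA => ?_⟩
    obtain ⟨h1, h2⟩ := hX₀ X hX
    have hb := bounds ν X E (by linarith) h2 (fun i => (hνX i).2)
    exact h1 (co s) (ct ν) hne hb.1 hb.2 (adm hs ν hν) (two hs ν (fun i => (hνX i).1)) u Y hXY hYX hYu A hA

end Pool.Agent.Results.MP_b454d1_nt.CommonSummandLaws
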