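import Pool.Agent.Y882.GX.Sm

/-!
# Every even number, every scale: a small prime plus an almost prime; Rivera's window

Rivera's conjecture: every even `N > 4` is `p + q` with primes `p`, `q` and `√N < p < 4 √N`. Here: for EVERY large even `N`,
without exceptions, there are at least `δ 𝔖(N) √N / (log N) ^ 2` (the expected order) primes `p` with `√N < p < 4 √N` such
that `N - p` has at most five prime factors, all of them at least `N ^ 0.099`. More generally let `0 < θ ≤ 1` and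
`r > 20 / (9 θ) - 3 / 80`. For every large even `N` and EVERY real `x` with `N ^ θ ≤ x ≤ N / 2` there are at least
`δ 𝔖(N) x / (log N) ^ 2` primes `p` with `x / 2 < p < x` such that `N - p` has at most `r` prime factors, all of them at
least `N ^ (1 / (4 r))`: `r = 3` for `θ ≥ 0.732`, `r = 4` for `θ ≥ 0.551`, `r = 5` for `θ ≥ 0.442`.

The pointwise lower bound for one block is the unused theorem `ptw` of the library of the starting files (weighted linear
sieve with Richert's weights, Bombieri's theorem for the primes up to `x` and a power saving for the multiples).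
-/

set_option autoImplicit false

open Finset Filter

namespace Pool.Agent.Results.MP_b454d1_nt.EveryEvenEveryScale

/-- the variable part of the singular series of the Goldbach problem -/
noncomputable def sing (N : ℕ) : ℝ :=
  ∏ p ∈ N.primeFactors.erase 2, (((p : ℝ) - 1) / ((p : ℝ) - 2))

open Classical in
/-- The number of the primes `p < N` with `u < p < v` such that `N - p` has at most `r` prime factors (counted with
multiplicity), all of them at least `w`. -/
noncomputable def count (r : ℕ) (w u v : ℝ) (N : ℕ) : ℕ :=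
  ((range N).filter (fun p : ℕ => p.Prime ∧ u < p ∧ (p : ℝ) < v ∧
    (N - p).primeFactorsList.length ≤ r ∧
    ∀ q : ℕ, q.Prime → q ∣ (N - p) → w ≤ q)).card

open Pool.Agent.Y882 Pool.Agent.Y882.GX Pool.Agent.Y882.GW

/-- the theorem in all scales -/
theorem scales (r : ℕ) (θ : ℝ) (hθ0 : 0 < θ) (hθ1 : θ ≤ 1) (hr : 20 / 9 < (r + 3 / 80) * θ) :
    ∃ δ : ℝ, 0 < δ ∧ ∃ N₀ : ℕ, ∀ N : ℕ, N₀ ≤ N → Even N → ∀ x : ℝ, (N : ℝ) ^ θ ≤ x → x ≤ N / 2 →
      δ * sing N * (x / Real.log N ^ 2) ≤ (count r ((N : ℝ) ^ (1 / (4 * r) : ℝ)) (x / 2) x N : ℝ) := by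
  have hr0 : (0 : ℝ) < (r : ℝ) + 3 / 80 := by positivity
  have hr2 : (2 : ℝ) < r := by nlinarith
  obtain ⟨τ, hτ1, hτ2⟩ : ∃ τ : ℝ, 10 / 9 / ((r : ℝ) + 3 / 80) < τ ∧ τ < θ / 2 := by
    apply _root_.exists_between
    rw [div_lt_div_iff₀ hr0 (by norm_num)]
    linarith
  have hτr : 10 / 9 < ((r : ℝ) + 3 / 80) * τ := by
    rw [div_lt_iff₀ hr0] at hτ1
    linarith
  have hτ0 : 0 < τ := lt_trans (by positivity) hτ1
  have hJ := Pool.Agent.Y882.KW.cond_C τ (80 / 77) hτ0 (by norm_num) (by norm_num)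
  obtain ⟨δ, hδ, Y0, H⟩ := ptw r θ τ (τ / 4) (9 / 10 * τ) (80 / 77) ((r + 3 / 80) * (9 / 10 * τ))
    hθ0 hθ1 (by linarith) (by linarith) (by linarith) hτ2 (by linarith) (by linarith)
    (by norm_num) hJ (by nlinarith) (by
      rw [mul_div_assoc, div_self (by positivity)]
      norm_num
      linarith)
  have hexp : (1 / (4 * r) : ℝ) < τ / 4 := by
    rw [div_lt_div_iff₀ (by linarith) (by norm_num)]
    have h1 : (1 : ℝ) * 4 < (10 / 9 : ℝ) * 4 - 3 / 80 * 4 * τ := by
      have : τ < 1 := by linarith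
      linarith
    nlinarith
  have ev1 : ∀ᶠ Y : ℕ in atTop, (2 : ℝ) ^ (1 / (4 * r) : ℝ) ≤ (Y : ℝ) ^ (τ / 4 - 1 / (4 * r) : ℝ) :=
    ((tendsto_rpow_atTop (by linarith)).comp tendsto_natCast_atTop_atTop).eventually_ge_atTop _
  obtain ⟨Y1, hY1⟩ := eventually_atTop.1 ev1
  refine ⟨δ, hδ, 2 * (max (max Y0 Y1) 3), fun N hN hev x hx1 hx2 => ?_⟩
  obtain ⟨Y, hYN⟩ := hev
  have hNY : N = 2 * Y := by omega
  have hYm : max (max Y0 Y1) 3 ≤ Y := by omega
  have hY0 : Y0 ≤ Y := ((le_max_left _ _).trans (le_max_left _ _)).trans hYm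
  have e1 := hY1 Y (((le_max_right _ _).trans (le_max_left _ _)).trans hYm)
  have hY3 : 3 ≤ Y := (le_max_right _ _).trans hYm
  have hYr : (3 : ℝ) ≤ Y := by exact_mod_cast hY3
  have hYp : (0 : ℝ) < Y := by linarith
  have hNr : (N : ℝ) = 2 * Y := by exact_mod_cast hNY
  have hxY : x ≤ Y := by linarith
  have hYx : (Y : ℝ) ^ θ ≤ x := by
    refine le_trans ?_ hx1
    exact Real.rpow_le_rpow hYp.le (by rw [hNr]; linarith) hθ0.le
  have hx0 : 0 < x := lt_of_lt_of_le (by positivity) hYx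
  have g1 := H Y hY0 x hYx hxY N (by omega) (by omega) ⟨Y, hYN⟩
  have hv : (N : ℝ) ^ (1 / (4 * r) : ℝ) ≤ (Y : ℝ) ^ (τ / 4) := by
    rw [hNr, Real.mul_rpow (by norm_num) hYp.le]
    have h7 : (Y : ℝ) ^ (τ / 4) =
        (Y : ℝ) ^ (τ / 4 - 1 / (4 * r) : ℝ) * (Y : ℝ) ^ (1 / (4 * r) : ℝ) := by
      rw [← Real.rpow_add hYp]
      congr 1
      ring
    rw [h7]
    exact mul_le_mul_of_nonneg_right e1 (by positivity)
  have h7 : ((gp r x ((Y : ℝ) ^ (τ / 4)) N).card : ℝ) ≤
      (count r ((N : ℝ) ^ (1 / (4 * r) : ℝ)) (x / 2) x N : ℝ) := by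
    apply Nat.cast_le.2
    classical
    unfold gp count
    apply card_le_card
    intro p hp
    rw [mem_filter] at hp ⊢
    obtain ⟨-, h8, h8', h9, h10, h11⟩ := hp
    have h14 : (p : ℝ) < N := by linarith
    exact ⟨mem_range.2 (by exact_mod_cast h14), h8, h8', h9, h10,
      fun q hq hqn => hv.trans (h11 q hq hqn)⟩
  refine le_trans ?_ (g1.trans h7)
  have hlY : 0 < Real.log Y := Real.log_pos (by linarith)
  have h14 : Real.log Y ≤ Real.log N := Real.log_le_log (by linarith) (by rw [hNr]; linarith)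
  have hs1 : 1 ≤ sgs N := one_le_sgs N
  have h15 : x / Real.log N ^ 2 ≤ x / Real.log Y ^ 2 :=
    div_le_div_of_nonneg_left hx0.le (by positivity) (pow_le_pow_left₀ hlY.le h14 2)
  calc δ * sing N * (x / Real.log N ^ 2) ≤ δ * sing N * (x / Real.log Y ^ 2) := by
        apply mul_le_mul_of_nonneg_left h15
        have : sing N = sgs N := rfl
        rw [this]
        positivity
    _ = δ * x / Real.log Y ^ 2 * sgs N := by
        have : sing N = sgs N := rfl
        rw [this]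
        ring

/-- **Every even number, every scale.** (1) Rivera's window: there is `δ > 0` such that EVERY large even `N` has at least
`δ 𝔖(N) √N / (log N) ^ 2` primes `p` with `√N < p < 4 √N` such that `N - p` has at most five prime factors, all at least
`N ^ 0.099`. (2) Let `0 < θ ≤ 1` and `(r + 3 / 80) θ > 20 / 9`. There is `δ > 0` such that for EVERY large even `N` and every
real `x` with `N ^ θ ≤ x ≤ N / 2` there are at least `δ 𝔖(N) x / (log N) ^ 2` primes `p` with `x / 2 < p < x` such that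
`N - p` has at most `r` prime factors, all at least `N ^ (1 / (4 r))`. -/
theorem result :
    (∃ δ : ℝ, 0 < δ ∧ ∃ N₀ : ℕ, ∀ N : ℕ, N₀ ≤ N → Even N →
      δ * sing N * (√(N : ℝ) / Real.log N ^ 2) ≤
        (count 5 ((N : ℝ) ^ ((99 : ℝ) / 1000)) (√(N : ℝ)) (4 * √(N : ℝ)) N : ℝ)) ∧
    (∀ (r : ℕ) (θ : ℝ), 0 < θ → θ ≤ 1 → 20 / 9 < (r + 3 / 80) * θ →
      ∃ δ : ℝ, 0 < δ ∧ ∃ N₀ : ℕ, ∀ N : ℕ, N₀ ≤ N → Even N → ∀ x : ℝ, (N : ℝ) ^ θ ≤ x → x ≤ N / 2 →
        δ * sing N * (x / Real.log N ^ 2) ≤ (count r ((N : ℝ) ^ (1 / (4 * r) : ℝ)) (x / 2) x N : ℝ)) := by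
  refine ⟨?_, fun r θ h0 h1 h2 => scales r θ h0 h1 h2⟩
  obtain ⟨δ, hδ, N₀, h⟩ := sqrtAll
  exact ⟨δ, hδ, N₀, fun N hN hev => h N hN hev⟩

end Pool.Agent.Results.MP_b454d1_nt.EveryEvenEveryScale
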