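import Pool.Agent.Q20.AS.Near

/-!
# No Goldbach primes within `C log² N` of `c √N`

The Goldbach-Knjzek-Rivera conjecture asks for a prime `p` with `√N < p < 4 √N` and `N - p` prime. On average there are about
`2 C` primes `p` within `C log² N` of a given point for which `N - p` is prime. For every `C` and finitely many `c > 0` there
are `N` of every size for which there is none near any of the points `c √N`.
-/

set_option autoImplicit false

open Finset Filter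

namespace Pool.Agent.Results.MP_b454d1_nt.NearMultiplesOfTheRoot

/-- `p` and `N - p` are primes -/
def GoldbachPrime (N p : ℕ) : Prop := p.Prime ∧ p ≤ N ∧ (N - p).Prime

/-- (1) For every finite set `Γ` of positive reals and every `C` there is a `T₀` such that for all `T ≥ T₀` there is an even
`N` between `T ^ 2` and `4 T ^ 2` such that for all `c ∈ Γ` and all primes `p` with `N - p` prime `|p - c √N| > C log² N`.

(2) In particular, for every `C` there are infinitely many even `N` for which no prime `p` of the intervals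
`(√N, √N + C log² N)` and `(4 √N - C log² N, 4 √N)` at the two ends of Rivera's interval makes `N - p` prime. -/
theorem result :
    (∀ (Γ : Finset ℝ), (∀ c ∈ Γ, 0 < c) → ∀ C : ℝ, ∃ T₀ : ℕ, ∀ T : ℕ, T₀ ≤ T →
      ∃ N : ℕ, Even N ∧ T ^ 2 ≤ N ∧ N ≤ 4 * T ^ 2 ∧
        ∀ c ∈ Γ, ∀ p : ℕ, GoldbachPrime N p → C * Real.log N ^ 2 < |(p : ℝ) - c * √(N : ℝ)|) ∧
    (∀ C : ℝ, {N : ℕ | Even N ∧ ∀ p : ℕ, GoldbachPrime N p →
      ¬ (√(N : ℝ) < p ∧ (p : ℝ) < √(N : ℝ) + C * Real.log N ^ 2) ∧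
      ¬ (4 * √(N : ℝ) - C * Real.log N ^ 2 < p ∧ (p : ℝ) < 4 * √(N : ℝ))}.Infinite) := by
  have h1 : ∀ (Γ : Finset ℝ), (∀ c ∈ Γ, 0 < c) → ∀ C : ℝ, ∃ T₀ : ℕ, ∀ T : ℕ, T₀ ≤ T →
      ∃ N : ℕ, Even N ∧ T ^ 2 ≤ N ∧ N ≤ 4 * T ^ 2 ∧
        ∀ c ∈ Γ, ∀ p : ℕ, GoldbachPrime N p → C * Real.log N ^ 2 < |(p : ℝ) - c * √(N : ℝ)| := by
    intro Γ hΓ C
    obtain ⟨T₀, h⟩ := Pool.Agent.Q20.AS.nearRoots 2 1 le_rfl Γ hΓ C
    refine ⟨T₀, fun T hT => ?_⟩
    obtain ⟨N, hev, hN1, hN2, h3⟩ := h T hT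
    refine ⟨N, hev, hN1, by rw [mul_pow] at hN2; exact hN2, fun c hc p hp => ?_⟩
    by_contra hcon
    push Not at hcon
    refine h3 1 le_rfl le_rfl c hc p hp.1 ?_ (by rw [one_mul]; exact hp.2.2)
    rw [Real.sqrt_eq_rpow] at hcon
    rw [one_mul]
    exact_mod_cast hcon
  refine ⟨h1, fun C => ?_⟩
  obtain ⟨T₀, h⟩ := h1 {1, 4} (by
    intro c hc
    rw [mem_insert, mem_singleton] at hc
    rcases hc with rfl | rfl <;> norm_num) C
  rw [Set.infinite_iff_exists_gt]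
  intro M
  obtain ⟨N, hev, hN1, -, h3⟩ := h (T₀ + M + 2) (by omega)
  refine ⟨N, ⟨hev, fun p hp => ⟨?_, ?_⟩⟩, ?_⟩
  · rintro ⟨h4, h5⟩
    have h6 := h3 1 (by simp) p hp
    rw [one_mul, abs_of_pos (by linarith)] at h6
    linarith
  · rintro ⟨h4, h5⟩
    have h6 := h3 4 (by simp) p hp
    rw [abs_of_neg (by linarith)] at h6
    linarith
  · have h7 := Nat.le_self_pow two_ne_zero (T₀ + M + 2)
    omega

end Pool.Agent.Results.MP_b454d1_nt.NearMultiplesOfTheRoot
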