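import Pool.Agent.Q46.SL.Tools
import Pool.Agent.Q46.SL.LogInv

/-!
# Almost prime `x` and `η - x` (`η` even, `x` between `√η` and `4 √η`) for a residue, its inverse and its logarithm

Rivera's conjecture asks for a prime `x` with `√η < x < 4 √η` and `η - x` prime, for every even `η`. Take a prime `p` between `2
√η` and `4 √η` (so `η ≤ p ^ 2`, `B = 2`) and intervals inside `(√η, p)`: for every even `η` the theorem gives many almost primes
`x` in the interval of the problem with `η - x` almost prime, which are moreover an exponent, a residue and its inverse modulo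
`p` simultaneously.

Let `p` be a large prime. In all boxes with `(N0 N1 N2) ^ 4 ≥ p ^ (10 + ε) T`, `T` the order of `g` modulo `p`, there are many `x` such
that ALL THREE of the exponent `x`, the residue `u g ^ x` and the inverse `v g ^ (-x)` have the property. Here the property is: `x` and `η - x` have at most `R` prime factors, all larger than `p ^ κ`.

In addition the numbers avoid arbitrary residue classes, at most `m` classes `E q` modulo each prime `q ≤ z`, as long as there is no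
local obstruction; `m = 0` is the case without classes. The exponent `κ`, the number `R` and the constant `cc` do not depend on the
classes.

Design and proof: helper46 (modules `Pool.Agent.Q46.SV.*`, `Pool.Agent.Q46.SL.*`): the vectors of the residues in question are
equidistributed modulo all small integers with a power saving, by bounds for exponential sums; the fundamental lemma of the
sieve is applied to the vectors.
-/

set_option autoImplicit false

namespace Pool.Agent.Results.MP_b454d1_nt.ResidueInverseLogarithm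

open Finset Polynomial
open Pool.Agent.Q46.SL hiding Almost

/-- `n` is not zero and has at most `R` prime factors (counted with multiplicity), all larger than `z` -/
def Almost (z : ℝ) (R : ℕ) (n : ℤ) : Prop :=
  n ≠ 0 ∧ n.natAbs.primeFactorsList.length ≤ R ∧ ∀ q : ℕ, q.Prime → (q : ℤ) ∣ n → z < q

/-- `x` is positive, `x` and `η - x` have at most `R` prime factors, all larger than `z`, and `x` avoids the classes `E q`, `q ≤ z` -/
def Good (η : ℤ) (z : ℝ) (R : ℕ) (E : ℕ → Finset ℕ) (x : ℤ) : Prop :=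
  0 < x ∧ Almost z R (x) ∧ Almost z R (η - x) ∧ ∀ q : ℕ, q.Prime → (q : ℝ) ≤ z → (x % q).toNat ∉ E q

/-- `E q` has at most `m` elements, and some residue `a` outside `E q` makes none of the numbers `x`, `η - x` (`a` in the place of `x`) divisible by `q` -/
def Adm (η : ℤ) (m : ℕ) (E : ℕ → Finset ℕ) : Prop :=
  ∀ q : ℕ, q.Prime → (E q).card ≤ m ∧ ∃ a < q, a ∉ E q ∧ ¬ (q : ℤ) ∣ a ∧ ¬ (q : ℤ) ∣ η - a

/-- the polynomials and the classes -/
noncomputable def sysE (η : ℤ) (m : ℕ) (E : ℕ → Finset ℕ) (hE : Adm η m E) : PE 2 m 2 where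
  f := ![X, C η - X]
  E := E
  deg := by
    rw [Fin.sum_univ_two]
    simp only [Matrix.cons_val]
    have d0 : (X : ℤ[X]).natDegree ≤ 1 := by compute_degree
    have d1 : (C η - X : ℤ[X]).natDegree ≤ 1 := by compute_degree
    omega
  adm := by
    intro q hq
    obtain ⟨h1, a, ha, haE, h2, h3⟩ := hE q hq
    refine ⟨h1, a, ha, haE, fun j => ?_⟩
    fin_cases j
    · simpa using h2
    · simpa using h3

lemma good_of {η : ℤ} {m B : ℕ} {E : ℕ → Finset ℕ} (hE : Adm η m E) {κ M : ℝ} (hM : (2 : ℝ) ≤ M)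
    (hh : |(η : ℝ)| ≤ M ^ B) {x : ℤ} (h : Near (B + 1) (sysE η m E hE) κ M x) (hx : (x : ℝ) ≤ M) :
    Good η (M ^ κ) ⌊((B + 1 : ℕ) + (2 : ℕ) + 1 : ℝ) / κ⌋₊ E x := by
  obtain ⟨h0, h12⟩ := h
  obtain ⟨h1, h2⟩ := h12 (by
    intro j
    have hB : (1 : ℝ) ≤ M ^ B := one_le_pow₀ (by linarith)
    have hBM : (2 : ℝ) * M ^ B ≤ M ^ (B + 1) := by
      rw [pow_succ]
      nlinarith
    have k0 := hh
    fin_cases j
    · refine cb_mono (cb_X) ?_
      push_cast
      norm_num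
      linarith
    · refine cb_mono (cb_sub (cb_C η) (cb_X)) ?_
      push_cast
      norm_num
      linarith) hx
  refine ⟨h0, ?_, ?_, h2⟩
  · simpa [sysE, Almost, Pool.Agent.Q46.SL.Almost] using h1 0
  · simpa [sysE, Almost, Pool.Agent.Q46.SL.Almost] using h1 1

/-- For every even `η`, `x` and `η - x` are almost primes for all three of an exponent, a residue and its inverse. -/
theorem result (B m : ℕ) (ε : ℝ) (hε : 0 < ε) (hε1 : ε ≤ 1) :
    ∃ κ : ℝ, 0 < κ ∧ ∃ cc : ℝ, 0 < cc ∧ ∃ R p₀ : ℕ, ∀ p : ℕ, p₀ ≤ p → ∀ [Fact p.Prime], ∀ η : ℤ, |(η : ℝ)| ≤ (p : ℝ) ^ B → ∀ E : ℕ → Finset ℕ, Adm η m E → ∀ (g u v : (ZMod p)ˣ) (A N : Fin 3 → ℕ),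
      A 0 + N 0 ≤ orderOf g → A 1 + N 1 ≤ p → A 2 + N 2 ≤ p → (∀ j, (p : ℝ) ^ ε ≤ N j) →
      (p : ℝ) ^ (10 + ε) * ((orderOf g : ℕ) : ℝ) ≤ ((N 0 : ℝ) * N 1 * N 2) ^ 4 →
      ∃ G : Finset ℕ, cc * ((N 0 : ℝ) * N 1 * N 2 / (p : ℝ) ^ 2) / Real.log p ^ (3 * (m + 2)) ≤ G.card ∧ ∀ x ∈ G,
          (A 0 ≤ x ∧ x < A 0 + N 0) ∧
          (A 1 ≤ ((u * g ^ x : (ZMod p)ˣ) : ZMod p).val ∧ ((u * g ^ x : (ZMod p)ˣ) : ZMod p).val < A 1 + N 1) ∧
          (A 2 ≤ ((v * (g ^ x)⁻¹ : (ZMod p)ˣ) : ZMod p).val ∧ ((v * (g ^ x)⁻¹ : (ZMod p)ˣ) : ZMod p).val < A 2 + N 2) ∧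
          Good η ((p : ℝ) ^ κ) R E x ∧ Good η ((p : ℝ) ^ κ) R E ((u * g ^ x : (ZMod p)ˣ) : ZMod p).val ∧
          Good η ((p : ℝ) ^ κ) R E ((v * (g ^ x)⁻¹ : (ZMod p)ˣ) : ZMod p).val := by
  obtain ⟨κ, hκ, cc, hcc, p₀, h⟩ := Pool.Agent.Q46.SL.loginv (Near (B + 1) : PE 2 m 2 → ℝ → ℝ → ℤ → Prop)
    (lg (m + 2)) (fun r _ => csN 2 m 2 (B + 1) r) ε hε hε1
  refine ⟨κ, hκ, cc, hcc, ⌊((B + 1 : ℕ) + (2 : ℕ) + 1 : ℝ) / κ⌋₊, max 2 p₀, ?_⟩
  intro p hp _ η t0 E hE g u v A N hA0 hA1 hA2 hN hN2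
  have hpr : (2 : ℝ) ≤ p := by exact_mod_cast (le_max_left _ _).trans hp
  have hord := ord_le' g
  obtain ⟨G, hG, hG2⟩ := h p ((le_max_right _ _).trans hp) (sysE η m E hE) g u v A N hA0 hA1 hA2 hN hN2
  refine ⟨G, le_trans (cnt le_rfl (by positivity) (log0 p) _ _) hG, ?_⟩
  intro x hx
  obtain ⟨a1, a2, a3, a4, a5, a6⟩ := hG2 x hx
  exact ⟨a1, a2, a3, good_of hE hpr t0 a4 (by exact_mod_cast (by omega : x ≤ p)),
    good_of hE hpr t0 a5 (by exact_mod_cast (ZMod.val_lt _).le), good_of hE hpr t0 a6 (by exact_mod_cast (ZMod.val_lt _).le)⟩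

end Pool.Agent.Results.MP_b454d1_nt.ResidueInverseLogarithm
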